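import Pool.Agent.H34.Park.Final

/-!
# Park's conjecture with residual bound two

If the signature is finite and every subdirectly irreducible algebra in the variety generated by
`A` has at most two elements, then `A` is finitely based.
-/

set_option autoImplicit false

open FirstOrder FirstOrder.Language

namespace Pool.Agent.Results.MP_e6efa7_al.ResidualBoundTwo

theorem result :
    ∀ (L : FirstOrder.Language.{0, 0}), (∀ n, IsEmpty (L.Relations n)) →
    Finite (Σ n, L.Functions n) →
    ∀ (A : Type) [L.Structure A],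
    (∀ (B : Type) [L.Structure B],
      (∀ s t : L.Term ℕ, (∀ v : ℕ → A, s.realize v = t.realize v) →
        ∀ w : ℕ → B, s.realize w = t.realize w) →
      (∃ a b : B, a ≠ b ∧ ∀ θ : B → B → Prop, Equivalence θ →
        (∀ (n : ℕ) (f : L.Functions n) (x y : Fin n → B), (∀ i, θ (x i) (y i)) →
          θ (Structure.funMap f x) (Structure.funMap f y)) →
        (∃ c d : B, c ≠ d ∧ θ c d) → θ a b) →
      Finite B ∧ Nat.card B ≤ 2) →
    ∃ E : Finset (L.Term ℕ × L.Term ℕ),
      (∀ e ∈ E, ∀ v : ℕ → A, e.1.realize v = e.2.realize v) ∧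
      ∀ s t : L.Term ℕ, (∀ v : ℕ → A, s.realize v = t.realize v) →
        ∀ (B : Type) [L.Structure B],
          (∀ e ∈ E, ∀ w : ℕ → B, e.1.realize w = e.2.realize w) →
          ∀ w : ℕ → B, s.realize w = t.realize w := by
  intro L hL hfin A _ hA
  obtain ⟨E, hE1, hE2⟩ := Pool.Agent.H34.Park.main hL hfin (A := A) (fun B _ hB ⟨a, b, hab, hSI⟩ =>
    hA B hB ⟨a, b, hab, fun θ h1 h2 => hSI θ ⟨h1, h2⟩⟩)
  exact ⟨E, hE1, fun s t hst B _ hB => hE2 B hB s t hst⟩

end Pool.Agent.Results.MP_e6efa7_al.ResidualBoundTwo
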